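import Pool.Agent.Run7.h659.HG9

/-!
# The Mumford–Tate groups of the fibres of families of motives over the line

Let `𝕍` be the polarized variation of integral Hodge structure of weight `w` of a family of motives over an open subset of the
projective line over a number field `L ⊂ ℂ` which contains `0`. Choose sections over `L` of its de Rham bundle, regular near
`0`, such that those with `a j ≥ p` span the step `F^p`, and an integral basis of the local system. The coordinates of the
sections are the columns of a matrix `P(z) = C Z(z)`, `Z` the fundamental matrix at `0` of the connection `f Z' = Z A`, whose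
entries are G-functions (André), `C` invertible. The monodromy group `Γ` consists of integral matrices, preserves the relations
over `ℂ[z]` between the entries of `P(z)` and the rational form `S` which polarizes the fibres.

At each point `z` near `0` the filtration has bases `Q` adapted to the Hodge decomposition and orthonormal for the Hodge
form (`IsHodgeBasis`). The Hodge tensors of type `(p, q)` of the sum of the fibres at the points `z_1, …, z_k` are the
rational tensors in the `p`-th tensor power of `⊕ 𝕍_(z_j)` times the `q`-th tensor power of the dual which are of type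
`(c, c)`. The group of the matrices which fix all Hodge tensors of all types is the Hodge group of the sum, the kernel of the
weight character on the Mumford–Tate group (`hodgeGroup`).

We prove: there is `G`, and for every `k` there are `M` and `c > 0`, such that in each window `[N, N + N ^ c]` outside a set
`X` of at most `M` integers, for all `k`-tuples of integers `m_j` with distances at least `G`,

1. **all** Hodge tensors, of all types `(p, q)`, of the sum of the fibres at `1 / m_1, …, 1 / m_k` have finite orbits under `Γ ^ k`;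
2. the Hodge group of the sum of the fibres contains `H ^ k`, `H` the identity component of the Zariski closure of `Γ`.

So the Mumford–Tate groups are as large as the monodromy allows. By the theorem of the fixed part the Hodge tensors at the
points `(1 / m_1, …, 1 / m_k)` are Hodge tensors at all points of (a finite cover of) the `k`-th power of the base.

* If the fibre at `0` is of abelian type, for instance for every pencil of hypersurfaces through the Fermat hypersurface, these
  tensors are motivated at `(0, …, 0)` (Hodge classes on abelian varieties are motivated) and hence at `(1 / m_1, …, 1 / m_k)`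
  (André's deformation principle): the Mumford–Tate group is the motivic Galois group for all motives generated by the
  fibres at `1 / m_1, …, 1 / m_k`.
* For the middle cohomology of the fibres of a Lefschetz pencil of odd dimensional varieties (its variable part) `H` is the
  symplectic group, so the Hodge group of the sum of the fibres is the product of `k` symplectic groups, and all Hodge tensors
  are generated by the polarizations.
-/

set_option autoImplicit false

open PowerSeries

namespace Pool.Agent.Results.MP_b8862a_ag.MumfordTateOfFibres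

/-- The arithmetic conditions in the definition of a G-function over a number field: geometric growth of the conjugates of
the coefficients and of their common denominators. -/
def GCond {L : Type} [Field L] (g : L⟦X⟧) : Prop := ∃ C : ℝ, (∀ (φ : L →+* ℂ) (m : ℕ), ‖φ (coeff m g)‖ ≤ C ^ (m + 1)) ∧
  ∀ m, ∃ d : ℕ, 0 < d ∧ (d : ℝ) ≤ C ^ (m + 1) ∧ ∀ j ≤ m, IsIntegral ℤ ((d : L) * coeff j g)

/-- `Z` is a fundamental matrix of G-functions of the system `f Z' = Z A`, regular at `0`, and `W` is its inverse. -/
structure IsGSystem {L : Type} [Field L] {n : ℕ} (f : Polynomial L) (A : Matrix (Fin n) (Fin n) (Polynomial L))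
    (Z W : Matrix (Fin n) (Fin n) L⟦X⟧) : Prop where
  regular : f.coeff 0 ≠ 0
  ode : ∀ i j, (f : L⟦X⟧) * PowerSeries.derivative L (Z i j) = ∑ k, Z i k * (A k j : L⟦X⟧)
  inverse : W * Z = 1
  gZ : ∀ i j, GCond (Z i j)
  gW : ∀ i j, GCond (W i j)

/-- the matrix of the values `Z_(i,j)(z)` -/
noncomputable def fundamental {L : Type} [Field L] [Algebra L ℂ] {n : ℕ} (Z : Matrix (Fin n) (Fin n) L⟦X⟧) (z : ℂ) :
    Matrix (Fin n) (Fin n) ℂ :=
  Matrix.of fun i j => ∑' m : ℕ, algebraMap L ℂ (coeff m (Z i j)) * z ^ m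

/-- All elements of `Γ` preserve the relations with coefficients in `ℂ[z]` between the entries of `P(z)` on the discs around
`0` of radius at most `R`. This is true for the monodromy group: continue the relation along a loop. -/
def Monodromy {n : ℕ} (P : ℂ → Matrix (Fin n) (Fin n) ℂ) (R : ℝ) (Γ : Subgroup (GL (Fin n) ℤ)) : Prop :=
  ∀ g ∈ Γ, ∀ r : ℝ, 0 < r → r ≤ R → ∀ F : MvPolynomial (Fin n × Fin n) (Polynomial ℂ),
    (∀ z : ℂ, ‖z‖ < r → F.eval₂ (Polynomial.evalRingHom z) (fun v => P z v.1 v.2) = 0) →
    ∀ z : ℂ, ‖z‖ < r → F.eval₂ (Polynomial.evalRingHom z)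
      (fun v => ((g : Matrix (Fin n) (Fin n) ℤ).map (Int.castRingHom ℂ) * P z) v.1 v.2) = 0

/-- the subspace of `ℂ ^ n` spanned by the columns of `P` with index in `J` -/
def columns {n : ℕ} (P : Matrix (Fin n) (Fin n) ℂ) (J : Set (Fin n)) : Submodule ℂ (Fin n → ℂ) :=
  Submodule.span ℂ ((fun j i => P i j) '' J)

/-- The columns of `Q` are a basis adapted to the Hodge structure of weight `w` on `ℚ ^ n` with the Hodge filtration
`F^p = columns P {j | p ≤ a j}`, polarized by `S`: the column `Q_j` is in `F^(a j)` and in the conjugate of `F^(w - a j)`, and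
the Hodge form is `1` on the basis (the Hodge-Riemann relations). -/
structure IsHodgeBasis {n : ℕ} (S : Matrix (Fin n) (Fin n) ℚ) (w : ℤ) (a : Fin n → ℤ) (P Q : Matrix (Fin n) (Fin n) ℂ) :
    Prop where
  filtration : ∀ p : ℤ, columns Q {j | p ≤ a j} = columns P {j | p ≤ a j}
  conjugate : ∀ j, (fun i => (starRingEnd ℂ) (Q i j)) ∈ columns Q {i | a i = w - a j}
  riemann : ∀ i j, (∑ x, ∑ y, Q x i * (S x y : ℂ) * (starRingEnd ℂ) (Q y j)) = if i = j then Complex.I ^ (w - 2 * a j) else 0

/-- the indices of the tensors of type `(p, q)` of the sum of `k` copies of `ℚ ^ n` -/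
abbrev Index (n k p q : ℕ) : Type := (Fin p → Fin n × Fin k) × (Fin q → Fin n × Fin k)

/-- the matrix `x ⊗ … ⊗ x ⊗ x⁻ᵀ ⊗ … ⊗ x⁻ᵀ` with which `x` acts on the tensors of type `(p, q)` -/
noncomputable def tensorAction {n k : ℕ} (p q : ℕ) (x : Matrix (Fin n × Fin k) (Fin n × Fin k) ℂ) :
    Matrix (Index n k p q) (Index n k p q) ℂ :=
  Matrix.of fun I J => (∏ s, x (I.1 s) (J.1 s)) * ∏ t, x⁻¹ (J.2 t) (I.2 t)

/-- The rational tensor `b` is a Hodge tensor of the sum of the Hodge structures with the Hodge bases `Q_1, …, Q_k`: it is a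
combination of the tensors of the dual bases `Q_J` of type `(c, c)`, `2 c = (p - q) w`. -/
def IsHodgeTensor {n k p q : ℕ} (w : ℤ) (a : Fin n → ℤ) (Q : Fin k → Matrix (Fin n) (Fin n) ℂ) (b : Index n k p q → ℚ) :
    Prop :=
  (fun I => (b I : ℂ)) ∈ Submodule.span ℂ ((fun J I => tensorAction p q (Matrix.blockDiagonal Q) I J) ''
    {J | ∑ s, (2 * a (J.1 s).1 - w) = ∑ t, (2 * a (J.2 t).1 - w)})

/-- the complex points of the Hodge group (special Mumford–Tate group) of the sum: the invertible matrices which fix all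
Hodge tensors of all types -/
def hodgeGroup {n k : ℕ} (w : ℤ) (a : Fin n → ℤ) (Q : Fin k → Matrix (Fin n) (Fin n) ℂ) :
    Set (Matrix (Fin n × Fin k) (Fin n × Fin k) ℂ) :=
  {x | IsUnit x ∧ ∀ (p q : ℕ) (b : Index n k p q → ℚ), IsHodgeTensor w a Q b →
    (tensorAction p q x).mulVec (fun I => (b I : ℂ)) = fun I => (b I : ℂ)}

/-- the orbit of the tensor `b` under `Γ ^ k` -/
def orbit {n k p q : ℕ} (Γ : Subgroup (GL (Fin n) ℤ)) (b : Index n k p q → ℚ) : Set (Index n k p q → ℂ) :=
  {y | ∃ g : Fin k → GL (Fin n) ℤ, (∀ j, g j ∈ Γ) ∧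
    y = (tensorAction p q (Matrix.blockDiagonal fun j => (g j : Matrix (Fin n) (Fin n) ℤ).map (Int.castRingHom ℂ))).mulVec
      fun I => (b I : ℂ)}

/-- the complex points of the identity component of the Zariski closure of `Γ`: the matrices which are in the Zariski closures
of all subgroups of finite index -/
def connectedMonodromy {n : ℕ} (Γ : Subgroup (GL (Fin n) ℤ)) : Set (Matrix (Fin n) (Fin n) ℂ) :=
  {h | ∀ Δ : Subgroup Γ, Δ.FiniteIndex → ∀ F : MvPolynomial (Fin n × Fin n) ℂ,
    (∀ g ∈ Δ, MvPolynomial.eval (fun v => (((g : GL (Fin n) ℤ) : Matrix (Fin n) (Fin n) ℤ).map (Int.castRingHom ℂ)) v.1 v.2) F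
      = 0) → MvPolynomial.eval (fun v => h v.1 v.2) F = 0}

open Pool.Agent.Run7.h659.HG

/-- **Mumford–Tate groups of fibres in windows.** -/
theorem result {L : Type} [Field L] [NumberField L] [Algebra L ℂ] {n : ℕ} (f : Polynomial L)
    (A : Matrix (Fin n) (Fin n) (Polynomial L)) (Z W : Matrix (Fin n) (Fin n) L⟦X⟧) (h : IsGSystem f A Z W)
    (C : Matrix (Fin n) (Fin n) ℂ) (hC : C.det ≠ 0) (R : ℝ) (hR : 0 < R) (Γ : Subgroup (GL (Fin n) ℤ))
    (hΓ : Monodromy (fun z => C * fundamental Z z) R Γ) (S : Matrix (Fin n) (Fin n) ℚ)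
    (hS : ∀ g ∈ Γ, ((g : Matrix (Fin n) (Fin n) ℤ).map (Int.castRingHom ℚ)).transpose * S *
      (g : Matrix (Fin n) (Fin n) ℤ).map (Int.castRingHom ℚ) = S) (w : ℤ) (a : Fin n → ℤ) :
    ∃ r : ℝ, 0 < r ∧ r ≤ R ∧ ∃ G : ℕ, ∀ k : ℕ, ∃ M : ℕ, ∃ c : ℝ, 0 < c ∧ ∀ N : ℕ, 1 ≤ N →
      ∃ X : Finset ℕ, X.card ≤ M ∧ ∀ m : Fin k → ℕ, (∀ i j, i ≠ j → (G : ℤ) ≤ |(m i : ℤ) - m j|) →
        (∀ j, N ≤ m j ∧ (m j : ℝ) ≤ N + (N : ℝ) ^ c ∧ m j ∉ X) → (∀ j, 1 / (m j : ℝ) < r) ∧
          ∀ Q : Fin k → Matrix (Fin n) (Fin n) ℂ,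
            (∀ j, IsHodgeBasis S w a (C * fundamental Z (1 / (m j : ℂ))) (Q j)) →
            (∀ (p q : ℕ) (b : Index n k p q → ℚ), IsHodgeTensor w a Q b → (orbit Γ b).Finite) ∧
            ∀ h : Fin k → Matrix (Fin n) (Fin n) ℂ, (∀ j, h j ∈ connectedMonodromy Γ) →
              Matrix.blockDiagonal h ∈ hodgeGroup w a Q := by
  classical
  have hD : Pool.Agent.Y921.DB.DatL f (fun i j => A i j) (fun i j => Z i j) (fun i j => W i j) := by
    refine ⟨h.regular, h.ode, fun i j => ?_, h.gZ, h.gW⟩
    have h1 : (W * Z) i j = (1 : Matrix (Fin n) (Fin n) L⟦X⟧) i j := by rw [h.inverse]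
    rw [Matrix.mul_apply] at h1
    rw [h1, Matrix.one_apply]
  have hmap : ∀ x : Matrix (Fin n) (Fin n) ℤ, rm (x.map (Int.castRingHom ℚ)) = zc x := by
    intro x
    ext i j
    unfold rm zc
    simp
  obtain ⟨r, hr, hrR, G, hwin⟩ := hodge_win hD hC hR (P := fun z => C * fundamental Z z) (fun z => rfl) Γ hΓ (S := S)
    (fun g hg => by
      have h1 := congrArg rm (hS g hg)
      rw [rm_mul, rm_mul, hmap] at h1
      have h2 : rm ((g : Matrix (Fin n) (Fin n) ℤ).map (Int.castRingHom ℚ)).transpose =
          (zc (g : Matrix (Fin n) (Fin n) ℤ)).transpose := by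
        rw [← hmap]
        rfl
      rw [h2] at h1
      exact h1) (fun j => 2 * a j - w)
  refine ⟨r, hr, hrR, G, fun k => ?_⟩
  obtain ⟨M, c, hc, hM⟩ := hwin k
  refine ⟨M, c, hc, fun N hN => ?_⟩
  obtain ⟨X, hX, hX'⟩ := hM N hN
  refine ⟨X, hX, fun m hm hmX => ?_⟩
  obtain ⟨h1, h2⟩ := hX' m hm hmX
  refine ⟨h1, fun Q hQ => ?_⟩
  have h3 : ∀ j, HD (Q j) (rm S) (fun j => 2 * a j - w) := by
    intro j
    refine hd_of (hQ j).conjugate ?_
    ext x y
    have h4 := (hQ j).riemann x y
    rw [Matrix.diagonal_apply, Matrix.mul_apply]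
    simp only [Matrix.mul_apply, Matrix.transpose_apply, Matrix.map_apply]
    by_cases hxy : x = y
    · rw [if_pos hxy]
      rw [if_pos hxy] at h4
      rw [hxy] at h4 ⊢
      rw [← h4, Finset.sum_comm]
      refine Finset.sum_congr rfl fun u _ => ?_
      rw [Finset.sum_mul]
      rfl
    · rw [if_neg hxy]
      rw [if_neg hxy] at h4
      rw [← h4, Finset.sum_comm]
      refine Finset.sum_congr rfl fun u _ => ?_
      rw [Finset.sum_mul]
      rfl
  choose B hB hPB using fun j => tri_of (w := w) (hQ j).filtration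
  have h5 : ∀ (p q : ℕ) (b : Index n k p q → ℚ), IsHodgeTensor w a Q b →
      (Set.range fun g : Fin k → Γ => (tn p q (zc (rh Γ k g))).mulVec (rc b)).Finite := fun p q b hb =>
    h2 Q B h3 hB hPB p q b (Hd_of (l := fun x : Fin n × Fin k => 2 * a x.1 - w) (tn_unit (HD.block h3).unitQ) hb)
  refine ⟨fun p q b hb => (h5 p q b hb).subset ?_, fun x hx => ⟨?_, fun p q b hb => fixed_all (h5 p q b hb) hx⟩⟩
  · rintro _ ⟨g, hg, rfl⟩
    refine ⟨fun j => ⟨g j, hg j⟩, ?_⟩
    have h6 := zc_rh Γ fun j => (⟨g j, hg j⟩ : Γ)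
    change (tn p q (zc (rh Γ k fun j => ⟨g j, hg j⟩))).mulVec (rc b) = _
    rw [h6]
    rfl
  · refine IsUnit.of_mul_eq_one (Matrix.blockDiagonal fun j => (x j)⁻¹) ?_
    rw [← Matrix.blockDiagonal_mul]
    have h6 : (fun j => x j * (x j)⁻¹) = 1 := funext fun j => Matrix.mul_nonsing_inv _ (by
      rw [isUnit_iff_ne_zero]
      intro h0
      have h7 := conn_det (hx j)
      rw [h0, zero_mul] at h7
      exact zero_ne_one h7)
    rw [h6, Matrix.blockDiagonal_one]

end Pool.Agent.Results.MP_b8862a_ag.MumfordTateOfFibres
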