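import Pool.Agent.Run7.h877.MT.Main

set_option autoImplicit false

/-!
# Two quartic classes decide the motivated Mumford-Tate conjecture

Let `M` be a pure motive (of André) of weight `w` over a finitely generated field `k ⊂ ℂ`, with the
Galois group `Γ`. It has a polarization `M ⊗ M → ℚ (-w)` (a motivated class), so `M` is isomorphic to
its dual up to a twist, and all classes on all tensor constructions on `M` and its dual are multilinear
forms `M ⊗ ⋯ ⊗ M → ℚ (-m)` in `n` variables, `2 m = n w`. In the file everything is written in
coordinates: `H` is the Betti realization, a polarized rational Hodge structure on `ℚ ^ ι`; `ρ` is the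
`ℓ`-adic realization (on `ℚ_ℓ ^ ι`, by the comparison isomorphism); multilinear forms are given by
their coefficients.

**Theorem.** Let `ρ` be semisimple. There are one rational Hodge form `a` and one `ℓ`-adic Tate form
`t` in four variables, which depend only on `H` and `ρ`, such that for every system `A` of forms which
are at the same time Hodge forms and Tate forms and contain the polarization (for example the
motivated classes; or the classes of algebraic cycles) the following is true. Suppose that `a` and `t`
are combinations of forms in `A`, and that all Hodge forms and all Tate forms in two variables are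
combinations of forms in `A` (the conjecture for the endomorphisms of `M`). Then:

1. The derived algebras of the three Lie algebras (of the Mumford-Tate group, of the motivic group,
   the group which fixes the forms in `A`, and of the `ℓ`-adic monodromy group) are equal.
2. Suppose that the three Lie algebras have the same centre, or that the centre of the algebra of
   endomorphisms is fixed by the involution of the polarization (no factors of type IV). Then the
   three Lie algebras are equal, and in all degrees, for any number of variables, the Hodge forms are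
   Tate forms, and the Tate forms are exactly the `ℓ`-adic combinations of Hodge forms. So the
   Mumford-Tate conjecture is true for `M`, and for all motives in the tensor category generated by `M`.

So for each motive the conjecture, a statement about all tensor powers, is a statement about the
endomorphisms and two classes in degree four. The motivic group is determined up to its group of
components (if it is connected, all Hodge forms are motivated).

For an abelian variety the conjecture for endomorphisms is known (Faltings), the Galois representation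
is semisimple (Faltings), all Hodge classes are motivated (Deligne, André), and the centres agree
(Vasiu; Ullmo and Yafaev). So for an abelian variety `X` over a number field, with arbitrary
endomorphisms, the Mumford-Tate conjecture is equivalent to: the single Tate class
`t ∈ H^4 (X ^ 4, ℚ_ℓ (2))` is a combination of Hodge classes. In particular it follows from the Tate
conjecture for cycles of codimension two on `X ^ 4`.

## Proof

`t` is the quartic form `β (Q (x ⊗ y) z, u)` of the orthogonal projector `Q` for the trace form onto
the Lie algebra `L` of all operators which kill the Tate forms, and `a` is the same for the Hodge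
forms. The trace form is nondegenerate on `L` since `ρ` is semisimple (replicas and Engel's theorem,
from the starting library), and on the Lie algebra of the Hodge forms by the polarization. An operator
`D` which kills `A` kills `t`, so it commutes with `Q`, and `D - Q D` commutes with `L`. By
`ℓ`-adic logarithms (limits of `(ρ(g) ^ (ℓ ^ n) - 1) / ℓ ^ n`) it commutes with an open subgroup, so
that it defines a Tate form in two variables, and is a central motivated endomorphism.

The idea (the adjoint representation, degree four) is also in the starting libraries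
`Pool.Agent.R913.Adj` (on the brackets and the `ℓ`-adic side) and `Pool.Agent.W516.MT` (one quartic
class for abelian varieties, under hypotheses).
-/

open Matrix Module Run7.h877.MT

noncomputable section

namespace Pool.Agent.Results.MP_b8862a_ag.TwoQuarticClasses

/-- The realizations of a pure polarized motive, in coordinates: a polarized rational Hodge structure
`H` of weight `w` on `ℚ ^ ι` (Betti), the continuous action `ρ` of the Galois group `Γ` on `ℚ_ℓ ^ ι`
(the `ℓ`-adic realization), and the action `μ` on `ℚ_ℓ (-1)` (the inverse of the cyclotomic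
character). The polarization `β` is a morphism to `ℚ (-w)`. -/
structure Realizations (ι : Type) [Fintype ι] [DecidableEq ι] (ℓ : ℕ) [Fact ℓ.Prime] (Γ : Type)
    [Group Γ] [TopologicalSpace Γ] where
  H : PolHS ι
  ρ : Γ →* Matrix ι ι ℚ_[ℓ]
  μ : Γ →* ℚ_[ℓ]
  continuous_rho : Continuous ρ
  continuous_mu : Continuous μ
  similitude : ∀ g, (ρ g)ᵀ * cM ℚ_[ℓ] H.β * ρ g = μ g ^ H.w • cM ℚ_[ℓ] H.β

/-- For every number `n` of variables a set of rational multilinear forms on `ℚ ^ ι`, given by their
coefficients. -/
abbrev Forms (ι : Type) : Type := ∀ n : ℕ, Set ((Fin n → ι) → ℚ)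

section

variable {ι : Type} [Fintype ι] [DecidableEq ι] {ℓ : ℕ} [Fact ℓ.Prime] {Γ : Type}
  [Group Γ] [TopologicalSpace Γ] (R : Realizations ι ℓ Γ) (A : Forms ι)

/-- The forms in `A` have the properties of motivated classes: they are Hodge classes and Tate classes
(in `n` variables, with values in `ℚ (-m)`, `2 m = n w`), and `A` contains the polarization. -/
structure IsMotivatedSystem : Prop where
  polarization : bil R.H.β 1 ∈ A 2
  hodge : ∀ n m : ℕ, 2 * m = n * R.H.w → ∀ a ∈ A n, IsHodge R.H m a
  tate : ∀ n m : ℕ, 2 * m = n * R.H.w → ∀ a ∈ A n, IsTate R.ρ R.μ m (cst ℚ_[ℓ] a)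

/-- The rational operator kills (as a derivation) all forms in `A`: it is in the Lie algebra of the
motivic Galois group. -/
def KillsMotivated (D : Matrix ι ι ℚ) : Prop :=
  ∀ n m : ℕ, 2 * m = n * R.H.w → ∀ a ∈ A n, Kills D a

/-- The same for operators with `ℓ`-adic coefficients. -/
def KillsMotivatedL (D : Matrix ι ι ℚ_[ℓ]) : Prop :=
  ∀ n m : ℕ, 2 * m = n * R.H.w → ∀ a ∈ A n, Kills D (cst ℚ_[ℓ] a)

/-- The operator kills all Hodge forms: it is in the Lie algebra of the Hodge group. -/
def KillsHodge (D : Matrix ι ι ℚ) : Prop :=
  ∀ (n m : ℕ) (a : (Fin n → ι) → ℚ), 2 * m = n * R.H.w → IsHodge R.H m a → Kills D a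

/-- The operator kills all Tate forms: it is in the Lie algebra of the `ℓ`-adic monodromy group. -/
def KillsTate (D : Matrix ι ι ℚ_[ℓ]) : Prop :=
  ∀ (n m : ℕ) (a : (Fin n → ι) → ℚ_[ℓ]), 2 * m = n * R.H.w → IsTate R.ρ R.μ m a → Kills D a

/-- The rational form is a rational combination of forms in `A`. -/
def Motivated {n : ℕ} (a : (Fin n → ι) → ℚ) : Prop := a ∈ Submodule.span ℚ (A n)

/-- The `ℓ`-adic form is an `ℓ`-adic combination of forms in `A`. -/
def MotivatedL {n : ℕ} (t : (Fin n → ι) → ℚ_[ℓ]) : Prop :=
  t ∈ Submodule.span ℚ_[ℓ] (cst ℚ_[ℓ] '' A n)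

/-- The conjecture for endomorphisms: all Hodge forms and all Tate forms in two variables are
combinations of forms in `A`. -/
def DegreeTwo : Prop :=
  (∀ a : (Fin 2 → ι) → ℚ, IsHodge R.H R.H.w a → Motivated A a) ∧
    ∀ t : (Fin 2 → ι) → ℚ_[ℓ], IsTate R.ρ R.μ R.H.w t → MotivatedL A t

/-- The derived algebras agree: brackets of operators which kill the forms in `A` kill all Hodge forms,
and (with `ℓ`-adic coefficients) all Tate forms. -/
def DerivedAgree : Prop :=
  (∀ X Y, KillsMotivated R A X → KillsMotivated R A Y → KillsHodge R (X * Y - Y * X)) ∧
    ∀ X Y, KillsMotivatedL R A X → KillsMotivatedL R A Y → KillsTate R (X * Y - Y * X)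

/-- `z` is in the centre of the algebra of the endomorphisms of the motive, the operators `e` such that
the form `β (e x, y)` is a combination of forms in `A`. -/
def IsCentral (z : Matrix ι ι ℚ) : Prop :=
  Motivated A (bil R.H.β z) ∧ ∀ e, Motivated A (bil R.H.β e) → z * e = e * z

/-- The centres agree: central endomorphisms which kill the forms in `A` kill all Hodge forms and all
Tate forms. -/
def CentresAgree : Prop :=
  ∀ z, IsCentral R A z → KillsMotivated R A z → KillsHodge R z ∧ KillsTate R (cM ℚ_[ℓ] z)

/-- The centre of the algebra of the endomorphisms is fixed by the involution of the polarization. -/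
def SelfAdjointCentre : Prop := ∀ z, IsCentral R A z → zᵀ * R.H.β = R.H.β * z

/-- **The Mumford-Tate conjecture in all degrees**: operators which kill the forms in `A` kill all
Hodge forms, and (with `ℓ`-adic coefficients) all Tate forms; all Hodge forms are Tate forms, and the
Tate forms are exactly the `ℓ`-adic combinations of Hodge forms. -/
def Conjecture : Prop :=
  (∀ X, KillsMotivated R A X → KillsHodge R X) ∧ (∀ X, KillsMotivatedL R A X → KillsTate R X) ∧
    ∀ n m : ℕ, 2 * m = n * R.H.w →
      (∀ a : (Fin n → ι) → ℚ, IsHodge R.H m a → IsTate R.ρ R.μ m (cst ℚ_[ℓ] a)) ∧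
        ∀ t : (Fin n → ι) → ℚ_[ℓ], IsTate R.ρ R.μ m t ↔
          t ∈ Submodule.span ℚ_[ℓ] (cst ℚ_[ℓ] '' {a | IsHodge R.H m a})

end

/-- **Two quartic classes decide the Mumford-Tate conjecture for a motive.** -/
theorem result {ι : Type} [Fintype ι] [DecidableEq ι] {ℓ : ℕ} [Fact ℓ.Prime] {Γ : Type}
    [Group Γ] [TopologicalSpace Γ] [IsTopologicalGroup Γ] [CompactSpace Γ]
    (R : Realizations ι ℓ Γ) (hss : SemisimpleRep R.ρ) :
    ∃ (a : (Fin 4 → ι) → ℚ) (t : (Fin 4 → ι) → ℚ_[ℓ]),
      IsHodge R.H (2 * R.H.w) a ∧ IsTate R.ρ R.μ (2 * R.H.w) t ∧
      ∀ A : Forms ι, IsMotivatedSystem R A → Motivated A a → MotivatedL A t → DegreeTwo R A →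
        DerivedAgree R A ∧ (CentresAgree R A ∨ SelfAdjointCentre R A → Conjecture R A) := by
  obtain ⟨QH, hQH⟩ := proj_data (beta_unit R.H) (L := KH R.H) (fun X hX h => nondeg_KH hX h)
    KH_lie fun X hX => skew_of_mem hX
  have hu := beta_unit' ℚ_[ℓ] R.H
  obtain ⟨QT, hQT⟩ := proj_data hu (L := LT R.H.w R.ρ R.μ) (LT_nd hu R.similitude hss)
    (LT_lie R.H.w R.ρ R.μ) fun X hX => LT_skew R.similitude hX
  refine ⟨qf R.H.β QH, qf (cM ℚ_[ℓ] R.H.β) QT, hodge_of_killed (by ring) hQH.kills,
    qf_tate R.similitude hQT, fun A hA hqH hqT h2 => ?_⟩
  have hHs := hodge_side hA.hodge hA.polarization h2.1 hQH hqH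
  have hTs := tate_side hA.tate R.continuous_rho R.continuous_mu R.similitude hA.polarization h2.2
    hQT hqT
  refine ⟨⟨fun X Y hX hY => hHs.1 X hX Y hY, fun X Y hX hY => hTs.1 X hX Y hY⟩, fun hc => ?_⟩
  have hc' : CentresAgree R A := by
    rcases hc with hc | hc
    · exact hc
    · intro z hz hk
      have h2 : Skew R.H.β z := skew_of_KQ (H := R.H) (A := A) hA.polarization hk
      have h5 := eq_zero_of_selfAdjoint (beta_unit R.H) (hc z hz) h2
      subst h5
      refine ⟨fun n m a _ _ => Kills.zero, fun n m a _ _ => ?_⟩
      rw [cM_zero]
      exact Kills.zero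
  have hH := hHs.2 fun z hz hk => (hc' z hz hk).1
  have hT := hTs.2 fun z hz hk => (hc' z hz hk).2
  refine ⟨hH, hT, fun n m hm => ?_⟩
  have hb := both hA.hodge hH hT (fun X hX => LT_le hA.tate hX) R.continuous_rho
    R.continuous_mu hm
  refine ⟨hb.1, fun t => ⟨hb.2 t, fun ht => isTate_span ?_ ht⟩⟩
  rintro _ ⟨a, ha, rfl⟩
  exact hb.1 a ha

end Pool.Agent.Results.MP_b8862a_ag.TwoQuarticClasses
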